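import Pool.Agent.H11.KT.Targets

/-!
# BM: `Bs` is multiplicative in its first argument (helper68, board elk_modules)
-/

set_option autoImplicit false

namespace Pool.Agent.H68.KT

open Pool.Agent.H11.EL Pool.Agent.H11.KT
open scoped commutatorElement

section

variable {G : Type} [Group G] {M : Subgroup G}

/-- centrality of the commutators -/
private def Cen (M : Subgroup G) : Prop := ∀ x ∈ M, ∀ y ∈ M, ∀ g : G, ⁅x, y⁆ * g = g * ⁅x, y⁆

private theorem com_mul (hc : Cen M) {p q r : G} (hp : p ∈ M) (hr : r ∈ M) :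
    ⁅p, q * r⁆ = ⁅p, q⁆ * ⁅p, r⁆ := by
  have e : ⁅p, q * r⁆ = ⁅p, q⁆ * (q * ⁅p, r⁆ * q⁻¹) := by
    simp only [commutatorElement_def]
    group
  rw [e, ← hc p hp r hr q, mul_inv_cancel_right]

private theorem mul_com (hc : Cen M) {p q r : G} (hq : q ∈ M) (hr : r ∈ M) :
    ⁅p * q, r⁆ = ⁅p, r⁆ * ⁅q, r⁆ := by
  have e : ⁅p * q, r⁆ = p * ⁅q, r⁆ * p⁻¹ * ⁅p, r⁆ := by
    simp only [commutatorElement_def]
    group
  rw [e, ← hc q hq r hr p, mul_inv_cancel_right, hc q hq r hr]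

private theorem com_mem (hM : M.Normal) {x : G} (hx : x ∈ M) (t : G) : ⁅x, t⁆ ∈ M := by
  have e : ⁅x, t⁆ = x * (t * x⁻¹ * t⁻¹) := by
    simp only [commutatorElement_def]
    group
  rw [e]
  exact M.mul_mem hx (hM.conj_mem _ (M.inv_mem hx) _)

private theorem Ps_mem (hM : M.Normal) (n : ℕ) (t u : ℕ → G) (hu : ∀ i, u i ∈ M) :
    Ps n t u ∈ M := by
  induction n with
  | zero => rw [Ps_zero]; exact M.one_mem
  | succ n ih =>
    rw [Ps_succ]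
    exact M.mul_mem ih (hM.conj_mem _ (com_mem hM (hu n) _) _)

private theorem B_mul (hM : M.Normal) (hc : Cen M) {T P t x y : G} (hT : T ∈ M) (hx : x ∈ M)
    (hy : y ∈ M) : ⁅T, P * ⁅x * y, t⁆ * P⁻¹⁆ =
      ⁅T, P * ⁅x, t⁆ * P⁻¹⁆ * ⁅T, P * ⁅y, t⁆ * P⁻¹⁆ := by
  have mx : P * ⁅x, t⁆ * P⁻¹ ∈ M := hM.conj_mem _ (com_mem hM hx _) _
  have my : P * ⁅y, t⁆ * P⁻¹ ∈ M := hM.conj_mem _ (com_mem hM hy _) _
  have mz : P * x * P⁻¹ ∈ M := hM.conj_mem _ hx _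
  have e : P * ⁅x * y, t⁆ * P⁻¹ = ⁅P * x * P⁻¹, P * ⁅y, t⁆ * P⁻¹⁆ *
      ((P * ⁅y, t⁆ * P⁻¹) * (P * ⁅x, t⁆ * P⁻¹)) := by
    simp only [commutatorElement_def]
    group
  have h1 : ⁅T, ⁅P * x * P⁻¹, P * ⁅y, t⁆ * P⁻¹⁆⁆ = 1 := by
    rw [commutatorElement_def, ← hc _ mz _ my T, mul_inv_cancel_right, mul_inv_cancel]
  rw [e, com_mul hc hT (M.mul_mem my mx), h1, one_mul, com_mul hc hT mx, hc T hT _ my]

end

theorem pf_BM : K_BM := by
  intro G _ M hM hc n t x y u hx hy hu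
  induction n with
  | zero => simp
  | succ n ih =>
    have hU : ⁅u n, t n⁆ ∈ M := com_mem hM (hu n) _
    have hT : Ps n t u ∈ M := Ps_mem hM n t u hu
    have m1 : t n * x n * (t n)⁻¹ ∈ M := hM.conj_mem _ (hx n) _
    have m2 : t n * y n * (t n)⁻¹ ∈ M := hM.conj_mem _ (hy n) _
    have m3 : Px n t * ⁅x n, t n⁆ * (Px n t)⁻¹ ∈ M := hM.conj_mem _ (com_mem hM (hx n) _) _
    have hA : ⁅t n * (x n * y n) * (t n)⁻¹, ⁅u n, t n⁆⁆ =
        ⁅t n * x n * (t n)⁻¹, ⁅u n, t n⁆⁆ * ⁅t n * y n * (t n)⁻¹, ⁅u n, t n⁆⁆ := by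
      have e : t n * (x n * y n) * (t n)⁻¹ =
          (t n * x n * (t n)⁻¹) * (t n * y n * (t n)⁻¹) := by group
      rw [e, mul_com hc m2 hU]
    have hB := B_mul hM hc (P := Px n t) (t := t n) hT (hx n) (hy n)
    rw [Bs_succ, Bs_succ, Bs_succ, ih]
    rw [hA, hB]
    have c1 := hc _ m1 _ hU
    have c2 := hc _ hT _ m3
    generalize ⁅t n * x n * (t n)⁻¹, ⁅u n, t n⁆⁆ = a at c1 ⊢
    generalize ⁅Ps n t u, Px n t * ⁅x n, t n⁆ * (Px n t)⁻¹⁆ = b at c2 ⊢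
    generalize ⁅t n * y n * (t n)⁻¹, ⁅u n, t n⁆⁆ = a'
    generalize ⁅Ps n t u, Px n t * ⁅y n, t n⁆ * (Px n t)⁻¹⁆ = b'
    generalize Bs n t x u = p
    generalize Bs n t y u = q
    calc p * q * (a * a' * (b * b')) = p * (q * (a * (a' * b) * b')) := by group
      _ = p * (q * (a * (b * a') * b')) := by rw [← c2 a']
      _ = p * (q * (a * b) * (a' * b')) := by group
      _ = p * (a * b * q * (a' * b')) := by
        rw [← mul_assoc q a b, ← c1 q, mul_assoc a q b, ← c2 q, mul_assoc a b q]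
      _ = p * (a * b) * (q * (a' * b')) := by group

end Pool.Agent.H68.KT
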