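import Pool.Agent.H49.KT.Targets

/-! Module DBL of the `R_Kt` board: doubling a unary stack. -/

namespace Pool.Agent.H68.KT

open Pool.Agent.H49.KT Turing Function

theorem un_succ (k : ℕ) : un (k + 1) = true :: un k := rfl

theorem un_rev (k : ℕ) : (un k).reverse = un k := by
  unfold un
  exact List.reverse_replicate

theorem un_len (k : ℕ) : (un k).length = k := by
  unfold un
  exact List.length_replicate

theorem pf_DBL : T_DBL := by
  intro U v u z x y k hxy hx hy
  have e := sp_lp (v := v) (u := u) (z := z) (x := x)
    (c := .seq (pushc y true) (pushc y true)) (un k) hx (fun _ => v) (fun _ => u)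
    (fun i => update (update z x []) y (un (2 * i))) (fun _ => 2) ⟨v.a, rfl⟩ rfl (by
      funext j
      by_cases h : j = y
      · subst h
        rw [update_self, update_of_ne hxy.symm, hy]
        rfl
      · rw [update_of_ne h]) (fun i hi => by
      refine ⟨(un k)[i], ?_⟩
      have e1 := sp_pushc (v.sa (un k)[i]) u (update (update z x []) y (un (2 * i))) y true
      have e2 := e1.seq (sp_pushc _ _ _ y true)
      refine ⟨e2.1.trans (congrArg _ ?_), e2.2⟩
      rw [update_self, update_idem, update_self, update_idem]
      rfl)
  have e3 := e.seq (sp_mv _ _ _ hxy.symm)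
  rw [un_len] at e3
  rw [update_self, un_rev, un_len, update_idem, update_of_ne hxy, update_self,
    List.append_nil] at e3
  have e4 : update (update (update z x []) y []) x (un (2 * k)) = update z x (un (2 * k)) := by
    funext j
    by_cases h : j = x
    · subst h
      rw [update_self, update_self]
    · rw [update_of_ne h, update_of_ne h]
      by_cases h1 : j = y
      · subst h1
        rw [update_self, hy]
      · rw [update_of_ne h1, update_of_ne h]
  rw [e4] at e3
  refine e3.mono ?_
  simp
  omega

end Pool.Agent.H68.KT
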