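import Pool.Agent.H49.KT.Targets

/-! Module POW of the `R_Kt` board: multiplication of a unary stack by a power of two. -/

namespace Pool.Agent.H68.KT

open Pool.Agent.H49.KT Turing Function

theorem unp_rev (k : ℕ) : (un k).reverse = un k := by
  unfold un
  exact List.reverse_replicate

theorem unp_len (k : ℕ) : (un k).length = k := by
  unfold un
  exact List.length_replicate

theorem pf_POW : T_DBL → T_POW := by
  intro hD U v u z x y k r hxy hxm hxm' hym hym' hx hy hm hm'
  have hmm : (Nm.m' : Nm) ≠ Nm.m := by decide
  have e := sp_lp (v := v) (u := u) (z := z) (x := .m)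
    (c := .seq (pushc .m' true) (dbl x y)) (un r) hm (fun _ => v) (fun _ => u)
    (fun i => update (update (update z .m []) .m' (un i)) x (un (k * 2 ^ i)))
    (fun i => 1 + (7 * (k * 2 ^ i) + 2)) ⟨v.a, rfl⟩ rfl (by
      funext j
      by_cases h : j = x
      · subst h
        rw [update_self, update_of_ne hxm, hx, pow_zero, mul_one]
      · rw [update_of_ne h]
        by_cases h1 : j = .m'
        · subst h1
          rw [update_self, update_of_ne hmm, hm']
          rfl
        · rw [update_of_ne h1]) (fun i hi => by
      refine ⟨false, ?_⟩
      have e1 := sp_pushc (v.sa (un r)[i]) u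
        (update (update (update z .m []) .m' (un i)) x (un (k * 2 ^ i))) .m' true
      have e2 := hD U (v.sa (un r)[i]) u (update (update (update (update z .m []) .m' (un i)) x
        (un (k * 2 ^ i))) .m' (true :: update (update (update z .m []) .m' (un i)) x
          (un (k * 2 ^ i)) .m')) x y (k * 2 ^ i) hxy
        (by rw [update_of_ne hxm', update_self])
        (by rw [update_of_ne hym', update_of_ne hxy.symm, update_of_ne hym', update_of_ne hym, hy])
      have e3 := e1.seq e2
      refine ⟨e3.1.trans (congrArg _ ?_), e3.2⟩
      funext j
      by_cases h : j = x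
      · subst h
        rw [update_self, update_self, pow_succ]
        congr 1
        ring
      · rw [update_of_ne h, update_of_ne h]
        by_cases h1 : j = .m'
        · subst h1
          rw [update_self, update_self, update_of_ne h, update_self]
          rfl
        · rw [update_of_ne h1, update_of_ne h1, update_of_ne h, update_of_ne h1])
  have e3 := e.seq (sp_mv _ _ _ hmm)
  rw [unp_len] at e3
  rw [update_of_ne hxm'.symm, update_self, unp_rev, unp_len] at e3
  refine Spec.mono ⟨e3.1.trans (congrArg _ ?_), e3.2⟩ ?_
  · funext j
    by_cases h : j = .m
    · subst h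
      rw [update_self, update_of_ne hxm.symm, update_of_ne hmm.symm,
        update_self, List.append_nil, update_of_ne hxm.symm, hm]
    · rw [update_of_ne h]
      by_cases h1 : j = .m'
      · subst h1
        rw [update_self, update_of_ne hxm'.symm, hm']
      · rw [update_of_ne h1]
        by_cases h2 : j = x
        · subst h2
          rw [update_self, update_self]
        · rw [update_of_ne h2, update_of_ne h1, update_of_ne h, update_of_ne h2]
  · have h1 : ∀ r : ℕ, ∑ i ∈ Finset.range r, (1 + (7 * (k * 2 ^ i) + 2) + 1) + 7 * k =
        7 * k * 2 ^ r + 4 * r := by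
      intro r
      induction r with
      | zero => simp
      | succ r ih =>
        rw [Finset.sum_range_succ, pow_succ]
        have : 7 * k * (2 ^ r * 2) = 7 * k * 2 ^ r + 7 * (k * 2 ^ r) := by ring
        omega
    have h2 := h1 r
    omega

end Pool.Agent.H68.KT
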